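import Pool.Agent.Helper4.T7.StD

/-!
# Project T7 (levels `7·5^n`), module Om: the values at the origin (model: `Helper71/TK/M_Om.lean`)
-/

set_option autoImplicit false

namespace Pool.Agent.Helper86.T7

open Pool.Agent.Helper14.CV (Homog EqC act Tl)
open Pool.Agent.Helper4.T7
open Pool.Agent.Helper14.W5 (tr5 Fn5 Tm opL op5 mulT mulL sclL Gd Wd5 dX dY cS M7 nS S5Trm S5Low0)

section lists

variable {q q' : ℕ}

private lemma opL_nil : (opL [] : Module.End (ZMod 5) (Fn5 q q')) = 0 := by simp [opL]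

private lemma opL_cons (t : Tm) (L : List Tm) : (opL (t :: L) : Module.End (ZMod 5) (Fn5 q q')) =
    ((t.1 : ℤ) : ZMod 5) • op5 t.2.1 t.2.2.1 t.2.2.2.1 t.2.2.2.2 + opL L := by simp [opL]

private lemma opL_app (L L' : List Tm) :
    (opL (L ++ L') : Module.End (ZMod 5) (Fn5 q q')) = opL L + opL L' := by simp [opL]

private lemma opL_scl (n : ℤ) (L : List Tm) :
    (opL (sclL n L) : Module.End (ZMod 5) (Fn5 q q')) = ((n : ℤ) : ZMod 5) • opL L := by
  induction L with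
  | nil => simp [sclL, opL_nil]
  | cons t L ih =>
    have h : sclL n (t :: L) = (n * t.1, t.2) :: sclL n L := rfl
    rw [h, opL_cons, opL_cons, ih, smul_add, smul_smul]
    push_cast
    rfl

private lemma op_zero (a b c d : ℤ) (F : Fn5 q q') :
    (op5 a b c d F : Fn5 q q') 0 0 =
      F ((b : ZMod q) * (a : ZMod q)⁻¹) ((c : ZMod q') * (d : ZMod q')⁻¹) := by
  change F (((b : ZMod q) + d * 0) * ((a : ZMod q) + 5 * c * 0)⁻¹)
    (((c : ZMod q') + a * 0) * ((d : ZMod q') + 5 * b * 0)⁻¹) = _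
  simp only [mul_zero, add_zero]

private lemma dXpow (k : ℕ) (F : Fn5 q q') (y : ZMod q') :
    (fun x => ((dX ^ k : Module.End (ZMod 5) (Fn5 q q')) F) x y) =
      (fwdDiff (1 : ZMod q))^[k] (fun x => F x y) := by
  induction k with
  | zero => rfl
  | succ k ih =>
    rw [Function.iterate_succ_apply', ← ih, pow_succ']
    rfl

private lemma dYpow (k : ℕ) (F : Fn5 q q') (x : ZMod q) :
    (fun y => ((dY ^ k : Module.End (ZMod 5) (Fn5 q q')) F) x y) =
      (fwdDiff (1 : ZMod q'))^[k] (fun y => F x y) := by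
  induction k with
  | zero => rfl
  | succ k ih =>
    rw [Function.iterate_succ_apply', ← ih, pow_succ']
    rfl

private lemma newX (n : ℕ) (F : Fn5 q q') (x : ZMod q) (y : ZMod q') :
    F (x + n) y = ∑ i ∈ Finset.range (n + 1), (n.choose i : ZMod 5) *
      ((dX ^ i : Module.End (ZMod 5) (Fn5 q q')) F) x y := by
  have h := shift_eq_sum_fwdDiff_iter (1 : ZMod q) (fun x => F x y) n x
  rw [nsmul_one] at h
  rw [h]
  refine Finset.sum_congr rfl fun i _ => ?_
  rw [← dXpow, nsmul_eq_mul]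

private lemma newY (n : ℕ) (F : Fn5 q q') (x : ZMod q) (y : ZMod q') :
    F x (y + n) = ∑ i ∈ Finset.range (n + 1), (n.choose i : ZMod 5) *
      ((dY ^ i : Module.End (ZMod 5) (Fn5 q q')) F) x y := by
  have h := shift_eq_sum_fwdDiff_iter (1 : ZMod q') (fun y => F x y) n y
  rw [nsmul_one] at h
  rw [h]
  refine Finset.sum_congr rfl fun i _ => ?_
  rw [← dYpow, nsmul_eq_mul]

private lemma five : ∀ g : ℕ → ZMod 5, g 5 = 0 →
    ∑ i ∈ Finset.range (5 + 1), (Nat.choose 5 i : ZMod 5) * g i = g 0 := by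
  intro g hg
  have h5 : (5 : ZMod 5) = 0 := by decide
  have h10 : (10 : ZMod 5) = 0 := by decide
  simp [Finset.sum_range_succ, Nat.choose, hg, h5, h10]

private lemma perX (F : Fn5 q q') (h : (dX ^ 5 : Module.End (ZMod 5) (Fn5 q q')) F = 0) (y : ZMod q') :
    ∀ (n : ℕ) (x : ZMod q), F (x + 5 * (n : ZMod q)) y = F x y := by
  intro n
  induction n with
  | zero => intro x; simp
  | succ n ih =>
    intro x
    have e : x + 5 * ((n + 1 : ℕ) : ZMod q) = (x + 5 * (n : ZMod q)) + (5 : ℕ) := by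
      push_cast; ring
    rw [e, newX 5 F, five _ (by rw [h]; rfl), pow_zero]
    exact ih x

private lemma perY (F : Fn5 q q') (h : (dY ^ 5 : Module.End (ZMod 5) (Fn5 q q')) F = 0) (x : ZMod q) :
    ∀ (n : ℕ) (y : ZMod q'), F x (y + 5 * (n : ZMod q')) = F x y := by
  intro n
  induction n with
  | zero => intro y; simp
  | succ n ih =>
    intro y
    have e : y + 5 * ((n + 1 : ℕ) : ZMod q') = (y + 5 * (n : ZMod q')) + (5 : ℕ) := by
      push_cast; ring
    rw [e, newY 5 F, five _ (by rw [h]; rfl), pow_zero]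
    exact ih y

private lemma perX' [NeZero q] (F : Fn5 q q') (h : (dX ^ 5 : Module.End (ZMod 5) (Fn5 q q')) F = 0)
    (x u : ZMod q) (y : ZMod q') : F (x + 5 * u) y = F x y := by
  have := perX F h y u.val x
  rwa [ZMod.natCast_zmod_val] at this

private lemma perY' [NeZero q'] (F : Fn5 q q') (h : (dY ^ 5 : Module.End (ZMod 5) (Fn5 q q')) F = 0)
    (x : ZMod q) (y u : ZMod q') : F x (y + 5 * u) = F x y := by
  have := perY F h x u.val y
  rwa [ZMod.natCast_zmod_val] at this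

end lists

/-- entries prime to five -/
private def good (L : List Tm) : Prop := ∀ t ∈ L, Gd t

private lemma unitInt (r : ℕ) (a : ℤ) (ha : a % 5 ≠ 0) : IsUnit (a : ZMod (5 ^ r)) := by
  have ha' : ¬ (5 : ℤ) ∣ a := by omega
  have h1 : IsCoprime a (5 : ℤ) := by
    have hp : Prime (5 : ℤ) := by
      have := Nat.prime_iff_prime_int.1 Nat.prime_five
      exact_mod_cast this
    exact ((Prime.coprime_iff_not_dvd hp).2 ha').symm
  have h2 : IsCoprime a ((5 : ℤ) ^ r) := h1.pow_right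
  obtain ⟨u, v, huv⟩ := h2
  have h3 : (u : ZMod (5 ^ r)) * (a : ZMod (5 ^ r)) = 1 := by
    have h4 : ((u * a + v * (5 : ℤ) ^ r : ℤ) : ZMod (5 ^ r)) = ((1 : ℤ) : ZMod (5 ^ r)) := by
      rw [huv]
    have h5 : (((5 : ℤ) ^ r : ℤ) : ZMod (5 ^ r)) = 0 := by
      have h := ZMod.natCast_self (5 ^ r)
      push_cast at h ⊢
      exact h
    push_cast at h4 h5
    rw [h5, mul_zero, add_zero] at h4
    exact h4
  exact IsUnit.of_mul_eq_one (u : ZMod (5 ^ r)) (by rw [mul_comm]; exact h3)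

private lemma fourth (a : ℤ) (ha : a % 5 ≠ 0) : ∃ k : ℤ, a ^ 4 = 1 + 5 * k := by
  have h : a ^ 4 % 5 = 1 := by
    have h1 : a % 5 = 1 ∨ a % 5 = 2 ∨ a % 5 = 3 ∨ a % 5 = 4 := by omega
    rcases h1 with h1 | h1 | h1 | h1 <;> norm_num [pow_succ, Int.mul_emod, h1]
  exact ⟨a ^ 4 / 5, by omega⟩

private lemma resid (r : ℕ) (a b : ℤ) (ha : a % 5 ≠ 0) : ∃ u : ZMod (5 ^ r),
    (b : ZMod (5 ^ r)) * (a : ZMod (5 ^ r))⁻¹ = 0 + ((((b * a ^ 3) % 5).toNat : ℕ) : ZMod (5 ^ r)) + 5 * u := by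
  have h1 : (a : ZMod (5 ^ r)) * (a : ZMod (5 ^ r))⁻¹ = 1 := ZMod.mul_inv_of_unit _ (unitInt r a ha)
  obtain ⟨k, hk⟩ := fourth a ha
  have hk' : (a : ZMod (5 ^ r)) ^ 4 = 1 + 5 * (k : ZMod (5 ^ r)) := by
    have := congrArg (fun z : ℤ => (z : ZMod (5 ^ r))) hk
    push_cast at this
    exact this
  have h2 : ((((b * a ^ 3) % 5).toNat : ℕ) : ZMod (5 ^ r)) =
      (b : ZMod (5 ^ r)) * (a : ZMod (5 ^ r)) ^ 3 - 5 * ((b * a ^ 3 / 5 : ℤ) : ZMod (5 ^ r)) := by
    have e1 : ((((b * a ^ 3) % 5).toNat : ℕ) : ℤ) = b * a ^ 3 - 5 * (b * a ^ 3 / 5) := by omega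
    have e2 : (((((b * a ^ 3) % 5).toNat : ℕ) : ℤ) : ZMod (5 ^ r)) =
        ((b * a ^ 3 - 5 * (b * a ^ 3 / 5) : ℤ) : ZMod (5 ^ r)) := by rw [e1]
    rw [Int.cast_natCast] at e2
    rw [e2]
    push_cast
    ring
  refine ⟨((b * a ^ 3 / 5 : ℤ) : ZMod (5 ^ r)) - k * ((b : ZMod (5 ^ r)) * (a : ZMod (5 ^ r))⁻¹), ?_⟩
  rw [h2]
  linear_combination (b : ZMod (5 ^ r)) * (a : ZMod (5 ^ r)) ^ 3 * h1 -
    (b : ZMod (5 ^ r)) * (a : ZMod (5 ^ r))⁻¹ * hk'

section ops

variable {r s : ℕ}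

private lemma op5_mul (hm : S5Trm) (a b c d a' b' c' d' : ℤ) (ha : a % 5 ≠ 0) (hd : d % 5 ≠ 0)
    (ha' : a' % 5 ≠ 0) (hd' : d' % 5 ≠ 0) :
    (op5 a b c d * op5 a' b' c' d' : Module.End (ZMod 5) (Fn5 (5 ^ r) (5 ^ s))) =
      op5 (a * a' + 5 * b * c') (a * b' + b * d') (c * a' + d * c') (5 * c * b' + d * d') := by
  refine LinearMap.ext fun F => ?_
  exact (hm (ZMod 5) r s F).1 a b c d a' b' c' d' (by omega) (by omega) (by omega) (by omega)

private lemma opL_map (hm : S5Trm) (t : Tm) (ht : Gd t) (L : List Tm)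
    (hL : good L) : (opL (L.map fun t' => mulT t t') : Module.End (ZMod 5) (Fn5 (5 ^ r) (5 ^ s))) =
      (((t.1 : ℤ) : ZMod 5) • op5 t.2.1 t.2.2.1 t.2.2.2.1 t.2.2.2.2) * opL L := by
  induction L with
  | nil => simp [opL_nil]
  | cons t' L ih =>
    have h1 := hL t' List.mem_cons_self
    rw [List.map_cons, opL_cons, opL_cons, ih fun x hx => hL x (List.mem_cons_of_mem _ hx), mul_add]
    congr 1
    rw [smul_mul_smul_comm, op5_mul hm _ _ _ _ _ _ _ _ ht.1 ht.2 h1.1 h1.2]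
    unfold mulT
    push_cast
    rfl

private lemma opL_mul (hm : S5Trm) (L L' : List Tm) (hL : good L) (hL' : good L') :
    (opL (mulL L L') : Module.End (ZMod 5) (Fn5 (5 ^ r) (5 ^ s))) = opL L * opL L' := by
  induction L with
  | nil => simp [mulL, opL_nil]
  | cons t L ih =>
    have h : mulL (t :: L) L' = (L'.map fun t' => mulT t t') ++ mulL L L' := by
      unfold mulL
      rw [List.flatMap_cons]
    rw [h, opL_app, opL_map hm t (hL t List.mem_cons_self) L' hL', opL_cons, add_mul,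
      ih fun x hx => hL x (List.mem_cons_of_mem _ hx)]

/-- the value at the origin -/
private lemma val_zero (hcm : (dX * dY : Module.End (ZMod 5) (Fn5 (5 ^ r) (5 ^ s))) = dY * dX)
    (G : Fn5 (5 ^ r) (5 ^ s)) (hG : G ∈ Wd5 4) (a b c d : ℤ) (ha : a % 5 ≠ 0) (hd : d % 5 ≠ 0) :
    (op5 a b c d G : Fn5 (5 ^ r) (5 ^ s)) 0 0 = ∑ i ∈ Finset.range 5, ∑ j ∈ Finset.range 5,
      ((((((b * a ^ 3) % 5).toNat).choose i * (((c * d ^ 3) % 5).toNat).choose j : ℕ) : ℤ) : ZMod 5) *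
        ((dX ^ i * dY ^ j : Module.End (ZMod 5) (Fn5 (5 ^ r) (5 ^ s))) G) 0 0 := by
  have hx : (dX ^ 5 : Module.End (ZMod 5) (Fn5 (5 ^ r) (5 ^ s))) G = 0 := by
    have := hG 5 0 (by norm_num)
    rwa [pow_zero, mul_one] at this
  have hy : (dY ^ 5 : Module.End (ZMod 5) (Fn5 (5 ^ r) (5 ^ s))) G = 0 := by
    have := hG 0 5 (by norm_num)
    rwa [pow_zero, one_mul] at this
  obtain ⟨u, hu⟩ := resid r a b ha
  obtain ⟨v, hv⟩ := resid s d c hd
  have hx4 : ((b * a ^ 3) % 5).toNat ≤ 4 := by omega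
  have hy4 : ((c * d ^ 3) % 5).toNat ≤ 4 := by omega
  rw [op_zero, hu, hv, perX' G hx, perY' G hy]
  generalize ((b * a ^ 3) % 5).toNat = X at hx4
  generalize ((c * d ^ 3) % 5).toNat = Y at hy4
  have ext5 : ∀ (N : ℕ) (g : ℕ → ZMod 5), N ≤ 4 →
      ∑ i ∈ Finset.range (N + 1), (N.choose i : ZMod 5) * g i =
        ∑ i ∈ Finset.range 5, (N.choose i : ZMod 5) * g i := by
    intro N g hN
    refine Finset.sum_subset (fun i hi => ?_) (fun i _ hi => ?_)
    · rw [Finset.mem_range] at hi ⊢; omega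
    · rw [Finset.mem_range, not_lt] at hi
      rw [Nat.choose_eq_zero_of_lt (by omega), Nat.cast_zero, zero_mul]
  rw [newX X G 0 _, ext5 X _ hx4]
  refine Finset.sum_congr rfl fun i _ => ?_
  rw [newY Y ((dX ^ i : Module.End (ZMod 5) (Fn5 (5 ^ r) (5 ^ s))) G) 0 0, ext5 Y _ hy4, Finset.mul_sum]
  refine Finset.sum_congr rfl fun j _ => ?_
  have hc : (dY ^ j * dX ^ i : Module.End (ZMod 5) (Fn5 (5 ^ r) (5 ^ s))) = dX ^ i * dY ^ j := by
    have h1 : Commute (dX : Module.End (ZMod 5) (Fn5 (5 ^ r) (5 ^ s))) dY := hcm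
    exact (h1.pow_pow i j).eq.symm
  have e : ((dY ^ j : Module.End (ZMod 5) (Fn5 (5 ^ r) (5 ^ s)))
      ((dX ^ i : Module.End (ZMod 5) (Fn5 (5 ^ r) (5 ^ s))) G)) =
      (dX ^ i * dY ^ j : Module.End (ZMod 5) (Fn5 (5 ^ r) (5 ^ s))) G := by
    rw [← hc]; rfl
  rw [e]
  push_cast
  ring

private lemma val_list (hcm : (dX * dY : Module.End (ZMod 5) (Fn5 (5 ^ r) (5 ^ s))) = dY * dX)
    (G : Fn5 (5 ^ r) (5 ^ s)) (hG : G ∈ Wd5 4) (L : List Tm) (hL : good L) :
    (opL L G : Fn5 (5 ^ r) (5 ^ s)) 0 0 = ∑ i ∈ Finset.range 5, ∑ j ∈ Finset.range 5,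
      ((nS L i j : ℤ) : ZMod 5) *
        ((dX ^ i * dY ^ j : Module.End (ZMod 5) (Fn5 (5 ^ r) (5 ^ s))) G) 0 0 := by
  induction L with
  | nil => simp [opL_nil, nS]
  | cons t L ih =>
    have h1 := hL t List.mem_cons_self
    have h2 := ih fun x hx => hL x (List.mem_cons_of_mem _ hx)
    have h3 := val_zero hcm G hG t.2.1 t.2.2.1 t.2.2.2.1 t.2.2.2.2 h1.1 h1.2
    rw [opL_cons]
    change ((t.1 : ℤ) : ZMod 5) * (op5 t.2.1 t.2.2.1 t.2.2.2.1 t.2.2.2.2 G : Fn5 (5 ^ r) (5 ^ s)) 0 0 +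
      (opL L G : Fn5 (5 ^ r) (5 ^ s)) 0 0 = _
    rw [h2, h3, Finset.mul_sum, ← Finset.sum_add_distrib]
    refine Finset.sum_congr rfl fun i _ => ?_
    rw [Finset.mul_sum, ← Finset.sum_add_distrib]
    refine Finset.sum_congr rfl fun j _ => ?_
    have e : nS (t :: L) i j = (t.1 : ℤ) * (((((t.2.2.1 * t.2.1 ^ 3) % 5).toNat).choose i *
      (((t.2.2.2.1 * t.2.2.2.2 ^ 3) % 5).toNat).choose j : ℕ) : ℤ) + nS L i j := by
      simp [nS]
    rw [e]
    push_cast
    ring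

private lemma cast5 {S C : ℤ} (h : (5 : ℤ) ∣ S - C) : (S : ZMod 5) = (C : ZMod 5) := by
  have h1 := (ZMod.intCast_zmod_eq_zero_iff_dvd (S - C) 5).2 (by exact_mod_cast h)
  push_cast at h1
  exact sub_eq_zero.1 h1

end ops

private lemma good_nil : good [] := by
  intro t ht
  cases ht

private lemma good_app {L L' : List Tm} (h : good L) (h' : good L') : good (L ++ L') := by
  intro t ht
  rcases List.mem_append.1 ht with h1 | h1
  · exact h t h1
  · exact h' t h1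

private lemma good_scl (n : ℤ) {L : List Tm} (h : good L) : good (sclL n L) := by
  intro t ht
  unfold sclL at ht
  rw [List.mem_map] at ht
  obtain ⟨t', h1, rfl⟩ := ht
  exact h t' h1

private lemma nd (a a' k : ℤ) (h : a % 5 ≠ 0) (h' : a' % 5 ≠ 0) : (a * a' + 5 * k) % 5 ≠ 0 := by
  have hp : Prime (5 : ℤ) := by
    have := Nat.prime_iff_prime_int.1 Nat.prime_five
    exact_mod_cast this
  intro h0
  have h1 : (5 : ℤ) ∣ a * a' := by
    have h2 := Int.dvd_of_emod_eq_zero h0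
    have h3 : (5 : ℤ) ∣ 5 * k := Dvd.intro _ rfl
    exact (Int.dvd_add_left h3).1 h2
  rcases hp.dvd_or_dvd h1 with h2 | h2
  · exact h (Int.emod_eq_zero_of_dvd h2)
  · exact h' (Int.emod_eq_zero_of_dvd h2)

private lemma good_mulT {t t' : Tm} (h : Gd t) (h' : Gd t') : Gd (mulT t t') := by
  constructor
  · have := nd t.2.1 t'.2.1 (t.2.2.1 * t'.2.2.2.1) h.1 h'.1
    unfold mulT
    simpa only [mul_assoc] using this
  · have := nd t.2.2.2.2 t'.2.2.2.2 (t.2.2.2.1 * t'.2.2.1) h.2 h'.2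
    unfold mulT
    simpa only [mul_assoc, add_comm] using this

private lemma good_mul {L L' : List Tm} (h : good L) (h' : good L') : good (mulL L L') := by
  intro t ht
  unfold mulL at ht
  rw [List.mem_flatMap] at ht
  obtain ⟨t1, h1, h2⟩ := ht
  rw [List.mem_map] at h2
  obtain ⟨t2, h3, rfl⟩ := h2
  exact good_mulT (h t1 h1) (h' t2 h3)

private lemma good_id (n : ℤ) (i f : Fin 5) : good (id5 n i f) := by
  unfold id5
  split_ifs
  · intro t ht
    rw [List.mem_singleton] at ht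
    subst ht
    exact ⟨by norm_num, by norm_num⟩
  · exact good_nil

private lemma good_mm {A B : Fin 5 → Fin 5 → List Tm} (hA : ∀ i f, good (A i f))
    (hB : ∀ i f, good (B i f)) (i f : Fin 5) : good (mm5 A B i f) := by
  unfold mm5
  exact good_app (good_app (good_app (good_app (good_mul (hA _ _) (hB _ _))
    (good_mul (hA _ _) (hB _ _))) (good_mul (hA _ _) (hB _ _))) (good_mul (hA _ _) (hB _ _)))
    (good_mul (hA _ _) (hB _ _))

private lemma good_OLQ (hg : TCeG) (c : Fin 8) (f : Fin 5) : good (OLQ c f) := by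
  obtain ⟨h, -, -⟩ := hg
  have h2 : ∀ i f, good (T2Q i f) := fun i f => (h i f).1
  have h3 : ∀ i f, good (T3Q i f) := fun i f => (h i f).2.1
  have h11 : ∀ i f, good (T11Q i f) := fun i f => (h i f).2.2.1
  have h13 : ∀ i f, good (T13Q i f) := fun i f => (h i f).2.2.2.1
  have h17 : ∀ i f, good (T17Q i f) := fun i f => (h i f).2.2.2.2.1
  have h19 : ∀ i f, good (T19Q i f) := fun i f => (h i f).2.2.2.2.2.1
  have h23 : ∀ i f, good (T23Q i f) := fun i f => (h i f).2.2.2.2.2.2.1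
  have h31 : ∀ i f, good (T31Q i f) := fun i f => (h i f).2.2.2.2.2.2.2.1
  have h37 : ∀ i f, good (T37Q i f) := fun i f => (h i f).2.2.2.2.2.2.2.2.1
  have m22 : ∀ i f, good (mm5 T2Q T2Q i f) := good_mm h2 h2
  have m23 : ∀ i f, good (mm5 T2Q T3Q i f) := good_mm h2 h3
  have m33 : ∀ i f, good (mm5 T3Q T3Q i f) := good_mm h3 h3
  unfold OLQ
  split_ifs
  · exact good_id _ _ _
  · exact good_app (good_app (good_id _ _ _) (h2 _ _)) (good_scl _ (h3 _ _))
  · exact good_app (good_id _ _ _) (good_scl _ (h2 _ _))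
  · exact good_app (good_scl _ (h3 _ _)) (good_scl _ (m22 _ _))
  · exact good_app (good_app (good_app (good_id _ _ _) (good_scl _ (h2 _ _)))
      (good_scl _ (h3 _ _))) (h11 _ _)
  · exact good_app (good_app (good_app (good_app (good_app (good_app (good_id _ _ _)
      (good_scl _ (h2 _ _))) (good_scl _ (h3 _ _))) (h11 _ _)) (h13 _ _)) (good_scl _ (h31 _ _)))
      (good_scl _ (m22 _ _))
  · exact good_app (good_app (good_app (good_app (good_app (good_app (good_app (good_app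
      (good_app (good_app (good_id _ _ _) (good_scl _ (h2 _ _))) (h3 _ _)) (h11 _ _))
      (good_scl _ (h13 _ _))) (good_scl _ (h23 _ _))) (h31 _ _)) (good_scl _ (h37 _ _)))
      (good_scl _ (m22 _ _))) (good_scl _ (m23 _ _))) (good_scl _ (m33 _ _))
  · exact good_app (good_app (good_app (good_app (good_app (good_app (good_app (good_app
      (good_app (h2 _ _) (good_scl _ (h3 _ _))) (good_scl _ (h11 _ _))) (h13 _ _))
      (good_scl _ (h17 _ _))) (good_scl _ (h19 _ _))) (h23 _ _)) (good_scl _ (h31 _ _)))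
      (good_scl _ (m23 _ _))) (good_scl _ (m33 _ _))

private lemma good_BOQ (hg : TCeG) (c : Fin 8) (f : Fin 5) : good (BOQ c f) := by
  unfold BOQ
  exact good_app (good_OLQ hg c f) (good_scl _ (good_mul (hg.2.2 c) (hg.2.1 f).1))

/-- multiples of the relation -/
private lemma mul_rel (hm : S5Trm) (hr : TRll) (hg : TCeG) {r s : ℕ} (F : Fin 5 → Fn5 (5 ^ r) (5 ^ s))
    (hR : RelQ F) (U : List Tm) (hU : good U) :
    ∑ f : Fin 5, opL (sclL (-1) (mulL U (relQ f))) (F f) = 0 := by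
  have h2 : ∀ f : Fin 5, opL (sclL (-1) (mulL U (relQ f))) (F f) =
      (((-1 : ℤ)) : ZMod 5) • (opL U) (opL (relQ f) (F f)) := by
    intro f
    rw [opL_scl, opL_mul hm U (relQ f) hU (fun t ht => (hg.2.1 f).1 t ht)]
    rfl
  rw [Finset.sum_congr rfl fun f _ => h2 f, ← Finset.smul_sum, ← map_sum, hr r s F hR, map_zero,
    smul_zero]

private lemma sumdiag (n : ℕ) (hn : n ≤ 4) (q : ℕ → ZMod 5) (D : ℕ → ℕ → ZMod 5) :
    ∑ i ∈ Finset.range 5, ∑ j ∈ Finset.range 5, (if i + j = n then q j else 0) * D i j =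
      ∑ j ∈ Finset.range (n + 1), q j * D (n - j) j := by
  interval_cases n <;> simp [Finset.sum_range_succ] <;> ring

private lemma nOQ_le (c : ℕ) : nOQ c ≤ 4 := by
  unfold nOQ aQ bQ
  split_ifs <;> omega

/-- OM. -/
theorem hOm (ht : S5Trm) (hl : S5Low0) (hr : TRll) (hg : TCeG) (hc : TCeO) : TOm := by
  intro r s c F hR h
  obtain ⟨_, _, _, _, hmono, _, _, _, hcm, _⟩ := hl r s
  have hBO : ∑ f : Fin 5, opL (OLQ c f) (F f) = ∑ f : Fin 5, opL (BOQ c f) (F f) := by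
    have h2 : ∀ f : Fin 5, opL (BOQ c f) (F f) = opL (OLQ c f) (F f) +
        opL (sclL (-1) (mulL (mOQ c) (relQ f))) (F f) := by
      intro f
      unfold BOQ
      rw [opL_app, LinearMap.add_apply]
    rw [Finset.sum_congr rfl fun f _ => h2 f, Finset.sum_add_distrib,
      mul_rel ht hr hg F hR (mOQ c) (hg.2.2 c), add_zero]
  have hn := nOQ_le c.val
  have hv : ∀ f : Fin 5, (opL (BOQ c f) (F f) : Fn5 (5 ^ r) (5 ^ s)) 0 0 =
      (MoQ c.val f.val (F f) : Fn5 (5 ^ r) (5 ^ s)) 0 0 := by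
    intro f
    have h4 : F f ∈ (Wd5 4 : Submodule (ZMod 5) (Fn5 (5 ^ r) (5 ^ s))) :=
      hmono (nOQ c.val : ℤ) 4 (by exact_mod_cast hn) (h f)
    rw [val_list hcm (F f) h4 _ (good_BOQ hg c f)]
    have e1 : ∀ i ∈ Finset.range 5, ∀ j ∈ Finset.range 5,
        ((nS (BOQ c f) i j : ℤ) : ZMod 5) *
          ((dX ^ i * dY ^ j : Module.End (ZMod 5) (Fn5 (5 ^ r) (5 ^ s))) (F f)) 0 0 =
        (if i + j = nOQ c.val then ((qOQ c.val f.val j : ℤ) : ZMod 5) else 0) *
          ((dX ^ i * dY ^ j : Module.End (ZMod 5) (Fn5 (5 ^ r) (5 ^ s))) (F f)) 0 0 := by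
      intro i hi j hj
      rw [Finset.mem_range] at hi hj
      by_cases hij : i + j ≤ nOQ c.val
      · rw [cast5 (hc c f i hi j hj hij)]
        push_cast
        rfl
      · rw [h f i j (by push_cast; omega)]
        simp
    rw [Finset.sum_congr rfl fun i hi => Finset.sum_congr rfl fun j hj => e1 i hi j hj,
      sumdiag (nOQ c.val) hn (fun j => ((qOQ c.val f.val j : ℤ) : ZMod 5))
        (fun i j => ((dX ^ i * dY ^ j : Module.End (ZMod 5) (Fn5 (5 ^ r) (5 ^ s))) (F f)) 0 0)]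
    unfold MoQ
    rw [LinearMap.sum_apply, Finset.sum_apply, Finset.sum_apply]
    rfl
  rw [hBO, Finset.sum_apply, Finset.sum_apply]
  exact Finset.sum_congr rfl fun f _ => hv f

end Pool.Agent.Helper86.T7
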